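import Mathlib

set_option autoImplicit false

open Set Topology MeasureTheory

namespace Pool.Agent.Results.MP_57a173_lc.Obstruction

variable {E : Type}

/-- The sigma-algebra generated by the sequence `A`. -/
def borelOver (A : ℕ → Set E) : MeasurableSpace E := MeasurableSpace.generateFrom (range A)

/-- The sigma-algebra on `E × E` generated by the rectangles with sides in `P`. -/
def rectSigma (P : Set (Set E)) : MeasurableSpace (E × E) :=
  MeasurableSpace.generateFrom {R | ∃ S ∈ P, ∃ T ∈ P, R = S ×ˢ T}

/-- `UpTo A k` consists of the sets Borel over `A` and the sets of projective class `≤ k`;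
`k = 0`: the sets Borel over `A`; `k = 1`: add the projections of the members of the
sigma-algebra generated by the rectangles `A m ×ˢ A n`; `k + 2`: add the projections of the
members of the sigma-algebra generated by rectangles with sides in `UpTo A (k + 1)`. -/
def UpTo (A : ℕ → Set E) : ℕ → Set (Set E)
  | 0 => {S | MeasurableSet[borelOver A] S}
  | 1 => {S | MeasurableSet[borelOver A] S} ∪
      {S | ∃ B : Set (E × E), MeasurableSet[rectSigma (range A)] B ∧ S = Prod.fst '' B}
  | k + 2 => UpTo A (k + 1) ∪
      {S | ∃ B : Set (E × E), MeasurableSet[rectSigma (UpTo A (k + 1))] B ∧ S = Prod.fst '' B}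

/-- Every set that is projective over `A` is Borel over `A`. -/
def ProjectiveIsBorel (A : ℕ → Set E) : Prop :=
  ∀ k, ∀ S ∈ UpTo A k, MeasurableSet[borelOver A] S

lemma proj_two {A : ℕ → Set E} (h : ProjectiveIsBorel A) (B : Set (E × E))
    (hB : MeasurableSet[@Prod.instMeasurableSpace E E (borelOver A) (borelOver A)] B) :
    MeasurableSet[borelOver A] (Prod.fst '' B) := by
  apply h 2
  right
  refine ⟨B, ?_, rfl⟩
  have hle : @Prod.instMeasurableSpace E E (borelOver A) (borelOver A) ≤
      rectSigma (UpTo A 1) := by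
    refine sup_le ?_ ?_
    · rintro _ ⟨S, hS, rfl⟩
      refine MeasurableSpace.measurableSet_generateFrom ⟨S, ?_, univ, ?_, ?_⟩
      · exact Or.inl hS
      · left
        exact @MeasurableSet.univ E (borelOver A)
      · ext x; simp
    · rintro _ ⟨S, hS, rfl⟩
      refine MeasurableSpace.measurableSet_generateFrom ⟨univ, ?_, S, ?_, ?_⟩
      · left
        exact @MeasurableSet.univ E (borelOver A)
      · exact Or.inl hS
      · ext x; simp
  exact hle _ hB

/-- The characteristic map of the sequence. -/
noncomputable def chr (A : ℕ → Set E) (x : E) (n : ℕ) : Bool := by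
  classical exact decide (x ∈ A n)

lemma borelOver_eq (A : ℕ → Set E) : borelOver A =
    MeasurableSpace.comap (chr A) inferInstance := by
  apply le_antisymm
  · apply MeasurableSpace.generateFrom_le
    rintro _ ⟨n, rfl⟩
    refine ⟨{u | u n = true}, ?_, ?_⟩
    · have hm : Measurable (fun u : ℕ → Bool => u n) := measurable_pi_apply n
      exact hm (measurableSet_singleton true)
    · ext x
      simp [chr]
  · rw [← measurable_iff_comap_le]
    rw [@measurable_pi_iff]
    intro n
    have : (fun x => chr A x n) = fun x => @decide (x ∈ A n) (Classical.dec _) := by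
      ext x; simp [chr]
    rw [this]
    refine @measurable_to_bool E (borelOver A) _ ?_
    have h2 : (fun x => @decide (x ∈ A n) (Classical.dec _)) ⁻¹' {true} = A n := by
      ext x; simp
    rw [h2]
    exact MeasurableSpace.measurableSet_generateFrom ⟨n, rfl⟩

theorem no_surj {A : ℕ → Set E} (h : ProjectiveIsBorel A) (g : E → (ℕ → ℕ))
    (hg : Measurable[borelOver A] g) (hs : Function.Surjective g) : False := by
  classical
  let U := (ℕ → Bool) × (ℕ → ℕ)
  obtain ⟨V, hV⟩ : ∃ V : ℕ → Set U, TopologicalSpace.IsTopologicalBasis (range V) := by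
    obtain ⟨b, hbc, -, hb⟩ := TopologicalSpace.exists_countable_basis U
    have hne : b.Nonempty := by
      by_contra hne
      rw [not_nonempty_iff_eq_empty] at hne
      have := hb.sUnion_eq
      rw [hne, sUnion_empty] at this
      have h3 : ((fun _ => false, fun _ => 0) : U) ∈ (∅ : Set U) := by
        rw [this]; trivial
      exact h3
    obtain ⟨V, hV⟩ := hbc.exists_eq_range hne
    exact ⟨V, hV ▸ hb⟩
  let Φ : E × E → (ℕ → ℕ) × U := fun p => (g p.1, (chr A p.1, g p.2))
  let F : Set ((ℕ → ℕ) × U) := ⋂ n, {q | q.1 n = 1 → q.2 ∉ V n}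
  have hchr : Measurable[borelOver A] (chr A) := by
    rw [borelOver_eq]; exact comap_measurable _
  have hF : MeasurableSet F := by
    refine MeasurableSet.iInter fun n => ?_
    have h1 : MeasurableSet {q : (ℕ → ℕ) × U | q.1 n = 1} := by
      have : Measurable (fun q : (ℕ → ℕ) × U => q.1 n) :=
        (measurable_pi_apply n).comp measurable_fst
      exact this (measurableSet_singleton 1)
    have h2 : MeasurableSet {q : (ℕ → ℕ) × U | q.2 ∈ V n} := by
      have : IsOpen (V n) := hV.isOpen ⟨n, rfl⟩
      exact measurable_snd this.measurableSet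
    have h3 : {q : (ℕ → ℕ) × U | q.1 n = 1 → q.2 ∉ V n} =
        {q | q.1 n = 1}ᶜ ∪ {q | q.2 ∈ V n}ᶜ := by
      ext q
      simp only [mem_ofPred_eq, mem_union, mem_compl_iff]
      tauto
    rw [h3]
    exact h1.compl.union h2.compl
  let D : Set E := Prod.fst '' (Φ ⁻¹' F)
  have hD : MeasurableSet[borelOver A] D := by
    apply proj_two h
    letI : MeasurableSpace E := borelOver A
    have hg' : Measurable g := hg
    have hc' : Measurable (chr A) := hchr
    have : Measurable Φ := (hg'.comp measurable_fst).prodMk
      ((hc'.comp measurable_fst).prodMk (hg'.comp measurable_snd))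
    exact this hF
  have hDc : MeasurableSet[borelOver A] Dᶜ := MeasurableSet.compl hD
  rw [borelOver_eq] at hDc
  obtain ⟨B, hB, hBD⟩ := hDc
  -- the analytic representation of `B`
  obtain ⟨K, hK, hKB⟩ : ∃ K : Set U, IsClosed K ∧ ∀ u, u ∈ B ↔ ∃ z, (u, z) ∈ K := by
    have hB' : MeasurableSet B := hB
    haveI : PolishSpace Bool := inferInstance
    haveI : PolishSpace (ℕ → Bool) := inferInstance
    have := hB'.analyticSet
    rw [AnalyticSet] at this
    rcases this with h0 | ⟨f, hf, hr⟩
    · exact ⟨∅, isClosed_empty, by simp [h0]⟩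
    · refine ⟨{q | f q.2 = q.1}, isClosed_eq (hf.comp continuous_snd) continuous_fst, ?_⟩
      intro u
      rw [← hr]
      constructor
      · rintro ⟨z, hz⟩
        exact ⟨z, hz⟩
      · rintro ⟨z, hz⟩
        exact ⟨z, hz⟩
  let c : ℕ → ℕ := fun n => if Disjoint (V n) K then 1 else 0
  have hc : ∀ q : U, q ∈ K ↔ ∀ n, c n = 1 → q ∉ V n := by
    intro q
    constructor
    · intro hq n hn hqn
      have : Disjoint (V n) K := by
        by_contra hd
        simp [c, hd] at hn
      exact this.le_bot ⟨hqn, hq⟩
    · intro hq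
      by_contra hqK
      obtain ⟨_, ⟨n, rfl⟩, hqn, hsub⟩ := hV.exists_subset_of_mem_open
        (show q ∈ Kᶜ from hqK) hK.isOpen_compl
      refine hq n ?_ hqn
      have : Disjoint (V n) K := by
        rw [disjoint_left]
        intro a ha hak
        exact hsub ha hak
      simp [c, this]
  obtain ⟨x, hx⟩ := hs c
  have key : x ∈ D ↔ ∃ z, (chr A x, z) ∈ K := by
    constructor
    · rintro ⟨⟨x', y⟩, hy, hxx⟩
      simp only at hxx
      subst hxx
      refine ⟨g y, ?_⟩
      rw [hc]
      intro n hn
      have := mem_iInter.1 hy n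
      simp only [Φ, mem_ofPred_eq, hx] at this
      exact this hn
    · rintro ⟨z, hz⟩
      obtain ⟨y, rfl⟩ := hs z
      refine ⟨(x, y), ?_, rfl⟩
      rw [hc] at hz
      refine mem_iInter.2 fun n => ?_
      simp only [Φ, mem_ofPred_eq, hx]
      exact hz n
  rw [← hKB] at key
  have h4 : x ∈ Dᶜ ↔ chr A x ∈ B := by rw [← hBD]; rfl
  by_cases hxD : x ∈ D
  · exact (h4.2 (key.1 hxD)) hxD
  · exact hxD (key.2 (h4.1 hxD))

/-- If every set projective over `A` is Borel over `A`, then no image of `E` under a map
measurable over `A` into a Polish space contains an uncountable Borel set. -/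
theorem result (E : Type) (A : ℕ → Set E) (h : ProjectiveIsBorel A)
    (Y : Type) [TopologicalSpace Y] [PolishSpace Y] [MeasurableSpace Y] [BorelSpace Y]
    (f : E → Y) (hf : Measurable[borelOver A] f) (C : Set Y) (hC : MeasurableSet C)
    (hCf : C ⊆ range f) : C.Countable := by
  classical
  by_contra hunc
  haveI : StandardBorelSpace C := hC.standardBorel
  have hu1 : ¬ Countable C := hunc
  have hu2 : ¬ Countable (ℕ → ℕ) := by
    intro hcon
    obtain ⟨F, hF⟩ := exists_surjective_nat (ℕ → ℕ)
    obtain ⟨n, hn⟩ := hF (fun k => F k k + 1)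
    have := congrFun hn n
    simp at this
  let e : C ≃ᵐ (ℕ → ℕ) := PolishSpace.measurableEquivOfNotCountable hu1 hu2
  letI : MeasurableSpace E := borelOver A
  let g : E → (ℕ → ℕ) := fun x => if hx : f x ∈ C then e ⟨f x, hx⟩ else fun _ => 0
  have hf' : Measurable f := hf
  have hT : MeasurableSet (f ⁻¹' C) := hf' hC
  have hg : Measurable g := by
    refine Measurable.dite (s := f ⁻¹' C) (f := fun x : (f ⁻¹' C : Set E) => e ⟨f x.1, x.2⟩)
      (g := fun _ => fun _ => 0) ?_ measurable_const hT
    exact e.measurable.comp ((hf'.comp measurable_subtype_coe).subtype_mk)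
  refine no_surj h g hg ?_
  intro z
  obtain ⟨x, hx⟩ := hCf (e.symm z).2
  refine ⟨x, ?_⟩
  have hx2 : f x ∈ C := hx ▸ (e.symm z).2
  simp only [g, hx2, dif_pos]
  have : (⟨f x, hx2⟩ : C) = e.symm z := Subtype.ext hx
  rw [this]
  simp

end Pool.Agent.Results.MP_57a173_lc.Obstruction
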